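import Pool.Agent.Helper26.WR.Stmts

/-! Artin-Schreier classes depending polynomially on a parameter (module LAM). -/

set_option autoImplicit false

namespace Pool.Agent.Helper26.WR

open Pool.Agent.Helper21.DN Polynomial

universe u

theorem lam_pow_coeff {p : ℕ} [Fact p.Prime] {R : Type u} [CommRing R] [CharP R p] (f : R[X])
    (m : ℕ) : (f ^ p).coeff m = if p ∣ m then (f.coeff (m / p)) ^ p else 0 := by
  have hp : 0 < p := (Fact.out : p.Prime).pos
  rw [← map_frobenius_expand p, coeff_map, coeff_expand hp]
  split_ifs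
  · rfl
  · exact map_zero _

/-- powers of a uniformizer -/
theorem lam_pi {E : Type u} [Field E] (v : AddValuation E (WithTop ℤ)) {π : E} (hπ : v π = 1)
    (n : ℕ) : v (π ^ n) = ((n : ℤ) : WithTop ℤ) := by
  induction n with
  | zero => rw [pow_zero, v.map_one]; rfl
  | succ n ih =>
    rw [pow_succ, v.map_mul, ih, hπ]
    push_cast
    rfl

theorem lam_const {k E : Type u} [Field k] [Field E] {κ : k →+* E}
    {v : AddValuation E (WithTop ℤ)} (h : TV κ v) (c : k) : 0 ≤ v (κ c) := by
  by_cases hc : c = 0
  · rw [hc, map_zero, v.map_zero]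
    exact le_top
  · rw [h.alg c hc]

theorem lam_zero {k E : Type u} [Field k] [Field E] {κ : k →+* E}
    {v : AddValuation E (WithTop ℤ)} (h : TV κ v) {c : k} (hc : 1 ≤ v (κ c)) : c = 0 := by
  by_contra hne
  rw [h.alg c hne] at hc
  exact absurd hc (by decide)

/-- the valuation of `h ^ p - h` if it is negative -/
theorem lam_AS {p : ℕ} (hp : 2 ≤ p) {E : Type u} [Field E] (v : AddValuation E (WithTop ℤ))
    {h : E} {n : ℕ} (hn : 1 ≤ n) (hv : v (h ^ p - h) = ((-(n : ℤ) : ℤ) : WithTop ℤ)) :
    ∃ n' : ℕ, n = p * n' := by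
  have hh : h ≠ 0 := by
    rintro rfl
    rw [zero_pow (by omega), sub_zero, v.map_zero] at hv
    exact WithTop.coe_ne_top hv.symm
  obtain ⟨a, ha⟩ := WithTop.ne_top_iff_exists.1 ((v.ne_top_iff).2 hh)
  have hpow : v (h ^ p) = (((p : ℤ) * a : ℤ) : WithTop ℤ) := by
    rw [v.map_pow, ← ha]
    rw [← WithTop.coe_nsmul, nsmul_eq_mul]
  have ha0 : a < 0 := by
    by_contra hcon
    push Not at hcon
    have h1 : 0 ≤ v (h ^ p - h) := by
      refine v.map_le_sub ?_ ?_
      · rw [hpow]
        exact_mod_cast mul_nonneg (Int.natCast_nonneg p) hcon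
      · rw [← ha]
        exact_mod_cast hcon
    rw [hv] at h1
    have : (0 : ℤ) ≤ -(n : ℤ) := by exact_mod_cast h1
    omega
  have hlt : v (h ^ p) < v h := by
    rw [hpow, ← ha]
    have : (p : ℤ) * a < a := by nlinarith [(by exact_mod_cast hp : (2 : ℤ) ≤ p)]
    exact_mod_cast this
  rw [v.map_sub_eq_of_lt_left hlt, hpow] at hv
  have h2 : (p : ℤ) * a = -(n : ℤ) := by exact_mod_cast hv
  refine ⟨(-a).toNat, ?_⟩
  have h3 : (((-a).toNat : ℕ) : ℤ) = -a := Int.toNat_of_nonneg (by omega)
  have : (n : ℤ) = p * ((-a).toNat : ℕ) := by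
    rw [h3]
    linarith
  exact_mod_cast this

theorem lam_main {p : ℕ} [Fact p.Prime] {k E : Type u} [Field k] [CharP k p] [IsAlgClosed k]
    [Field E] [CharP E p] {κ : k →+* E} {v : AddValuation E (WithTop ℤ)} (hTV : TV κ v) {π : E}
    (hπ : v π = 1) : ∀ n : ℕ, ∀ U : E[X], U.coeff 0 = 0 → (∀ i, 0 ≤ v (U.coeff i * π ^ n)) →
    {l : k | ∃ h o : E, 0 ≤ v o ∧ U.eval (κ l) = h ^ p - h + o}.Infinite →
    ∃ (r : ℕ) (h w : E[X]), (∀ i, 0 ≤ v (w.coeff i)) ∧ expand E (p ^ r) U = h ^ p - h + w := by
  have hpp : p.Prime := Fact.out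
  have hp2 : 2 ≤ p := hpp.two_le
  have hp0 : 0 < p := hpp.pos
  have hπ0 : π ≠ 0 := by
    rintro rfl
    rw [v.map_zero] at hπ
    exact absurd hπ (by decide)
  intro n
  induction n with
  | zero =>
    intro U _ hU _
    refine ⟨0, 0, U, fun i => ?_, ?_⟩
    · have := hU i
      rwa [pow_zero, mul_one] at this
    · rw [pow_zero, expand_one, zero_pow hp0.ne']
      ring
  | succ n ih =>
    intro U hU0 hU hinf
    have hex : ∀ i, ∃ c : k, 1 ≤ v (U.coeff i * π ^ (n + 1) - κ c) := fun i => hTV.const _ (hU i)
    choose c hc using hex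
    have hcz : ∀ i, U.coeff i = 0 → c i = 0 := by
      intro i hi
      have h1 := hc i
      rw [hi, zero_mul, zero_sub, v.map_neg] at h1
      exact lam_zero hTV h1
    -- the leading polynomial
    set Cc : k[X] := ∑ i ∈ U.support, monomial i (c i) with hCc
    have hCcoeff : ∀ i, Cc.coeff i = c i := by
      intro i
      rw [hCc, finsetSum_coeff]
      simp only [coeff_monomial]
      rw [Finset.sum_ite_eq' U.support i]
      split_ifs with h
      · rfl
      · rw [notMem_support_iff] at h
        exact (hcz i h).symm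
    set V : E[X] := U - Cc.map κ * Polynomial.C ((π⁻¹) ^ (n + 1)) with hV
    have hVc : ∀ i, 0 ≤ v (V.coeff i * π ^ n) := by
      intro i
      have h1 : V.coeff i * π ^ n = (U.coeff i * π ^ (n + 1) - κ (c i)) * π⁻¹ := by
        rw [hV, coeff_sub, coeff_mul_C, coeff_map, hCcoeff, inv_pow]
        field_simp
        ring
      have hinvπ : v π⁻¹ = ((-1 : ℤ) : WithTop ℤ) := by
        rw [v.map_inv, hπ]
        rfl
      rw [h1, v.map_mul, hinvπ]
      have h2 := hc i
      by_cases hz : U.coeff i * π ^ (n + 1) - κ (c i) = 0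
      · rw [hz, v.map_zero]
        exact le_top
      · obtain ⟨a, ha⟩ := WithTop.ne_top_iff_exists.1 ((v.ne_top_iff).2 hz)
        rw [← ha] at h2 ⊢
        have h3 : (1 : ℤ) ≤ a := by exact_mod_cast h2
        have h4 : (0 : ℤ) ≤ a + -1 := by omega
        have e4 : ((a : ℤ) : WithTop ℤ) + ((-1 : ℤ) : WithTop ℤ) = ((a + -1 : ℤ) : WithTop ℤ) := rfl
        rw [e4]
        exact_mod_cast h4
    by_cases hC0 : Cc = 0
    · have hVU : V = U := by
        rw [hV, hC0, Polynomial.map_zero, zero_mul, sub_zero]
      rw [hVU] at hVc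
      exact ih U hU0 hVc hinf
    · -- a good parameter
      have hroots : {l : k | Cc.eval l = 0}.Finite := by
        by_contra hcon
        exact hC0 (eq_zero_of_infinite_isRoot Cc hcon)
      obtain ⟨l, ⟨h, o, ho, hl⟩, hl2⟩ := (hinf.sdiff hroots).nonempty
      have hl3 : Cc.eval l ≠ 0 := hl2
      have hUl : U.eval (κ l) = V.eval (κ l) + κ (Cc.eval l) * (π⁻¹) ^ (n + 1) := by
        rw [hV, eval_sub, eval_mul, eval_C, eval_map_apply]
        ring
      have hVl : 0 ≤ v (V.eval (κ l) * π ^ n) := by
        rw [eval_eq_sum, Polynomial.sum, Finset.sum_mul]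
        refine v.map_le_sum fun i _ => ?_
        have e : V.coeff i * κ l ^ i * π ^ n = (V.coeff i * π ^ n) * κ (l ^ i) := by
          rw [map_pow]
          ring
        rw [e, v.map_mul]
        exact add_nonneg (hVc i) (lam_const hTV _)
      have hval : v (h ^ p - h) = ((-((n + 1 : ℕ) : ℤ) : ℤ) : WithTop ℤ) := by
        have h1 : h ^ p - h = κ (Cc.eval l) * (π⁻¹) ^ (n + 1) + (V.eval (κ l) - o) := by
          have := hl
          rw [hUl] at this
          linear_combination -this
        have h2 : v (κ (Cc.eval l) * (π⁻¹) ^ (n + 1)) = ((-((n + 1 : ℕ) : ℤ) : ℤ) : WithTop ℤ) := by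
          rw [v.map_mul, hTV.alg _ hl3, zero_add, inv_pow, v.map_inv, lam_pi v hπ]
          rfl
        have h3 : ((-((n + 1 : ℕ) : ℤ) : ℤ) : WithTop ℤ) < v (V.eval (κ l) - o) := by
          refine lt_of_lt_of_le (b := ((-(n : ℤ) : ℤ) : WithTop ℤ)) ?_ ?_
          · have : -((n + 1 : ℕ) : ℤ) < -(n : ℤ) := by push_cast; omega
            exact_mod_cast this
          · refine v.map_le_sub ?_ ?_
            · by_cases hz : V.eval (κ l) = 0
              · rw [hz, v.map_zero]
                exact le_top
              · obtain ⟨a, ha⟩ := WithTop.ne_top_iff_exists.1 ((v.ne_top_iff).2 hz)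
                rw [v.map_mul, lam_pi v hπ, ← ha] at hVl
                rw [← ha]
                have h4 : (0 : ℤ) ≤ a + n := by exact_mod_cast hVl
                have h5 : -(n : ℤ) ≤ a := by omega
                exact_mod_cast h5
            · refine le_trans ?_ ho
              have : -(n : ℤ) ≤ 0 := by omega
              exact_mod_cast this
        rw [h1, v.map_add_eq_of_lt_left (by rw [h2]; exact h3), h2]
      obtain ⟨n', hn'⟩ : ∃ n', n + 1 = p * n' :=
        lam_AS hp2 v (Nat.succ_le_succ (Nat.zero_le n)) hval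
      have hn'n : n' ≤ n := by
        have : 1 ≤ n' := by
          rcases Nat.eq_zero_or_pos n' with h | h
          · rw [h, mul_zero] at hn'
            omega
          · exact h
        nlinarith
      -- roots of the coefficients
      have hex2 : ∀ i, ∃ d : k, d ^ p = c i := fun i => IsAlgClosed.exists_pow_nat_eq (c i) hp0
      choose d hd using hex2
      have hdz : ∀ i, c i = 0 → d i = 0 := by
        intro i hi
        have := hd i
        rw [hi] at this
        exact pow_eq_zero_iff hp0.ne' |>.1 this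
      set D : k[X] := ∑ i ∈ U.support, monomial i (d i) with hD
      have hDcoeff : ∀ i, D.coeff i = d i := by
        intro i
        rw [hD, finsetSum_coeff]
        simp only [coeff_monomial]
        rw [Finset.sum_ite_eq' U.support i]
        split_ifs with h
        · rfl
        · rw [notMem_support_iff] at h
          exact (hdz i (hcz i h)).symm
      set h1 : E[X] := D.map κ * Polynomial.C ((π⁻¹) ^ n') with hh1
      have hDp : D ^ p = expand k p Cc := by
        ext m
        rw [lam_pow_coeff, coeff_expand hp0]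
        split_ifs
        · rw [hDcoeff, hd, hCcoeff]
        · rfl
      have hh1p : h1 ^ p = expand E p (Cc.map κ * Polynomial.C ((π⁻¹) ^ (n + 1))) := by
        rw [hh1, mul_pow, ← Polynomial.map_pow, hDp, map_expand, map_mul, expand_C, ← C_pow,
          ← pow_mul, hn', mul_comm n' p]
      set U1 : E[X] := expand E p V + h1 with hU1
      have hU1' : U1 = expand E p U - h1 ^ p + h1 := by
        rw [hU1, hh1p, hV, map_sub]
      have hU10 : U1.coeff 0 = 0 := by
        have hc0 : c 0 = 0 := hcz 0 hU0
        rw [hU1, coeff_add, coeff_expand hp0, if_pos (dvd_zero p), Nat.zero_div, hV, coeff_sub,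
          coeff_mul_C, coeff_map, hCcoeff, hU0, hc0, hh1, coeff_mul_C, coeff_map, hDcoeff,
          hdz 0 hc0]
        simp
      have hU1c : ∀ i, 0 ≤ v (U1.coeff i * π ^ n) := by
        intro i
        rw [hU1, coeff_add, add_mul]
        refine v.map_le_add ?_ ?_
        · rw [coeff_expand hp0]
          split_ifs
          · exact hVc _
          · rw [zero_mul, v.map_zero]
            exact le_top
        · have e : h1.coeff i * π ^ n = κ (d i) * π ^ (n - n') := by
            rw [hh1, coeff_mul_C, coeff_map, hDcoeff, inv_pow]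
            have e1 : π ^ n = π ^ n' * π ^ (n - n') := by
              rw [← pow_add]
              congr 1
              omega
            rw [e1]
            field_simp
          rw [e, v.map_mul, lam_pi v hπ]
          refine add_nonneg (lam_const hTV _) ?_
          have : (0 : ℤ) ≤ ((n - n' : ℕ) : ℤ) := Int.natCast_nonneg _
          exact_mod_cast this
      have hinf1 : {l : k | ∃ h o : E, 0 ≤ v o ∧ U1.eval (κ l) = h ^ p - h + o}.Infinite := by
        intro hfin
        apply hinf
        have hsurj : Function.Surjective (fun x : k => x ^ p) := fun x =>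
          IsAlgClosed.exists_pow_nat_eq x hp0
        refine Set.Finite.of_preimage (f := fun x : k => x ^ p) (hfin.subset ?_) hsurj
        rintro l ⟨h, o, ho, hl⟩
        refine ⟨h - h1.eval (κ l), o, ho, ?_⟩
        rw [hU1', eval_add, eval_sub, eval_pow, expand_eval, ← map_pow, hl, sub_pow_char]
        ring
      obtain ⟨r, h2, w, hw, he⟩ := ih U1 hU10 hU1c hinf1
      refine ⟨r + 1, h2 + expand E (p ^ r) h1, w, hw, ?_⟩
      have e1 : expand E (p ^ (r + 1)) U = expand E (p ^ r) (expand E p U) := by
        rw [pow_succ, expand_mul]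
      have e2 : expand E p U = U1 + h1 ^ p - h1 := by
        rw [hU1']
        ring
      rw [e1, e2, map_sub, map_add, he, map_pow, add_pow_char]
      ring

theorem st_LAM : ST_LAM.{u} := by
  intro p _ k E _ _ _ _ κ v hTV J hJ y hinf j hj
  have hpp : p.Prime := Fact.out
  have hp2 : 2 ≤ p := hpp.two_le
  have hp0 : 0 < p := hpp.pos
  obtain ⟨π, hπ⟩ := hTV.unif
  have : CharP E p := charP_of_injective_ringHom κ.injective p
  set U : E[X] := ∑ i ∈ J, monomial i (y i) with hU
  have hUc : ∀ i, U.coeff i = if i ∈ J then y i else 0 := by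
    intro i
    rw [hU, finsetSum_coeff]
    simp only [coeff_monomial]
    rw [Finset.sum_ite_eq' J i]
  have hj0 : 0 ∉ J := fun h => hJ 0 h (dvd_zero p)
  have hU0 : U.coeff 0 = 0 := by rw [hUc, if_neg hj0]
  -- pole order
  have hex : ∀ i, ∃ n : ℕ, 0 ≤ v (U.coeff i * π ^ n) := by
    intro i
    by_cases hz : U.coeff i = 0
    · refine ⟨0, ?_⟩
      rw [hz, zero_mul, v.map_zero]
      exact le_top
    · obtain ⟨a, ha⟩ := WithTop.ne_top_iff_exists.1 ((v.ne_top_iff).2 hz)
      refine ⟨(-a).toNat, ?_⟩
      rw [v.map_mul, lam_pi v hπ, ← ha]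
      have : (0 : ℤ) ≤ a + ((-a).toNat : ℕ) := by
        have := Int.self_le_toNat (-a)
        omega
      exact_mod_cast this
  choose nn hnn using hex
  set n : ℕ := J.sup nn with hn
  have hbd : ∀ i, 0 ≤ v (U.coeff i * π ^ n) := by
    intro i
    by_cases hi : i ∈ J
    · have h1 : nn i ≤ n := Finset.le_sup hi
      have e : U.coeff i * π ^ n = U.coeff i * π ^ (nn i) * π ^ (n - nn i) := by
        rw [mul_assoc, ← pow_add]
        congr 2
        omega
      rw [e, v.map_mul, lam_pi v hπ]
      refine add_nonneg (hnn i) ?_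
      have : (0 : ℤ) ≤ ((n - nn i : ℕ) : ℤ) := Int.natCast_nonneg _
      exact_mod_cast this
    · rw [hUc, if_neg hi, zero_mul, v.map_zero]
      exact le_top
  have hinf' : {l : k | ∃ h o : E, 0 ≤ v o ∧ U.eval (κ l) = h ^ p - h + o}.Infinite := by
    refine hinf.mono ?_
    rintro l ⟨h, hl⟩
    refine ⟨h, 0, by rw [v.map_zero]; exact le_top, ?_⟩
    rw [hl, hU, eval_finsetSum, add_zero]
    refine Finset.sum_congr rfl fun i _ => ?_
    rw [eval_monomial, mul_comm]
  obtain ⟨r, h, w, hw, he⟩ := lam_main hTV hπ n U hU0 hbd hinf'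
  have hjp : ¬ p ∣ j := hJ j hj
  have hj1 : j ≠ 0 := by
    rintro rfl
    exact hj0 hj
  -- coefficients of the left side
  have hW : ∀ i, (expand E (p ^ r) U).coeff (j * p ^ i) = if i = r then y j else 0 := by
    intro i
    rw [coeff_expand (pow_pos hp0 r)]
    by_cases hir : i = r
    · subst hir
      rw [if_pos (Dvd.intro_left j rfl), if_pos rfl, Nat.mul_div_cancel _ (pow_pos hp0 _), hUc,
        if_pos hj]
    · rw [if_neg hir]
      split_ifs with hd
      · rw [hUc]
        rcases lt_or_gt_of_ne hir with hlt | hgt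
        · exfalso
          have h1 : p ^ i * p ∣ j * p ^ i := by
            refine dvd_trans ?_ hd
            rw [← pow_succ]
            exact pow_dvd_pow p hlt
          rw [mul_comm j] at h1
          exact hjp (Nat.dvd_of_mul_dvd_mul_left (pow_pos hp0 i) h1)
        · rw [if_neg]
          intro hmem
          apply hJ _ hmem
          have e : j * p ^ i = (j * p ^ (i - r - 1) * p) * p ^ r := by
            have : p ^ i = p ^ (i - r - 1) * p * p ^ r := by
              rw [← pow_succ, ← pow_add]
              congr 1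
              omega
            rw [this]
            ring
          rw [e, Nat.mul_div_cancel _ (pow_pos hp0 _)]
          exact Dvd.intro_left _ rfl
      · rfl
  have heq0 : (if (0 : ℕ) = r then y j else 0) = -h.coeff (j * p ^ 0) + w.coeff (j * p ^ 0) := by
    rw [← hW 0, he, coeff_add, coeff_sub, lam_pow_coeff, if_neg (by rwa [pow_zero, mul_one])]
    ring
  have heqs : ∀ i, (if i + 1 = r then y j else 0) = h.coeff (j * p ^ i) ^ p -
      h.coeff (j * p ^ (i + 1)) + w.coeff (j * p ^ (i + 1)) := by
    intro i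
    have hdiv : p ∣ j * p ^ (i + 1) := by
      rw [pow_succ, ← mul_assoc]
      exact Dvd.intro_left _ rfl
    have hdiv2 : j * p ^ (i + 1) / p = j * p ^ i := by
      rw [pow_succ, ← mul_assoc, Nat.mul_div_cancel _ hp0]
    rw [← hW (i + 1), he, coeff_add, coeff_sub, lam_pow_coeff, if_pos hdiv, hdiv2]
  -- powers
  have hpow : ∀ x : E, 0 ≤ v (x ^ p) → 0 ≤ v x := by
    intro x hx
    by_cases hz : x = 0
    · rw [hz, v.map_zero]
      exact le_top
    · obtain ⟨a, ha⟩ := WithTop.ne_top_iff_exists.1 ((v.ne_top_iff).2 hz)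
      rw [v.map_pow, ← ha, ← WithTop.coe_nsmul, nsmul_eq_mul] at hx
      rw [← ha]
      have h1 : (0 : ℤ) ≤ (p : ℤ) * a := by exact_mod_cast hx
      have h2 : 0 ≤ a := by
        by_contra hcon
        push Not at hcon
        have : (p : ℤ) * a < 0 := mul_neg_of_pos_of_neg (by exact_mod_cast hp0) hcon
        omega
      exact_mod_cast h2
  have hpow' : ∀ x : E, 0 ≤ v x → 0 ≤ v (x ^ p) := by
    intro x hx
    rw [v.map_pow]
    exact nsmul_nonneg hx p
  -- large indices
  have hlarge : ∀ i, h.natDegree < i → h.coeff (j * p ^ i) = 0 := by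
    intro i hi
    apply coeff_eq_zero_of_natDegree_lt
    have h1 : i < p ^ i := Nat.lt_pow_self (by omega)
    have h2 : p ^ i ≤ j * p ^ i := Nat.le_mul_of_pos_left _ (by omega)
    omega
  have hdown : ∀ t i, r ≤ i → h.natDegree < i + t → 0 ≤ v (h.coeff (j * p ^ i)) := by
    intro t
    induction t with
    | zero =>
      intro i _ hi
      rw [hlarge i (by simpa using hi), v.map_zero]
      exact le_top
    | succ t iht =>
      intro i hi hd
      have h1 := iht (i + 1) (by omega) (by omega)
      have h2 := heqs i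
      rw [if_neg (by omega)] at h2
      apply hpow
      have h3 : h.coeff (j * p ^ i) ^ p = h.coeff (j * p ^ (i + 1)) - w.coeff (j * p ^ (i + 1)) := by
        linear_combination -h2
      rw [h3]
      exact v.map_le_sub h1 (hw _)
  have hr : 0 ≤ v (h.coeff (j * p ^ r)) := hdown (h.natDegree + 1) r le_rfl (by omega)
  have hup : ∀ i, i < r → 0 ≤ v (h.coeff (j * p ^ i)) := by
    intro i
    induction i with
    | zero =>
      intro hi
      have h2 := heq0
      rw [if_neg (by omega)] at h2
      have h3 : h.coeff (j * p ^ 0) = w.coeff (j * p ^ 0) := by linear_combination h2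
      rw [h3]
      exact hw _
    | succ i ihi =>
      intro hi
      have h1 := ihi (by omega)
      have h2 := heqs i
      rw [if_neg (by omega)] at h2
      have h3 : h.coeff (j * p ^ (i + 1)) = h.coeff (j * p ^ i) ^ p + w.coeff (j * p ^ (i + 1)) := by
        linear_combination h2
      rw [h3]
      exact v.map_le_add (hpow' _ h1) (hw _)
  rcases Nat.eq_zero_or_pos r with hr0 | hr0
  · subst hr0
    have h2 := heq0
    rw [if_pos rfl] at h2
    rw [h2]
    exact v.map_le_add (by rw [v.map_neg]; exact hr) (hw _)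
  · obtain ⟨s, rfl⟩ : ∃ s, r = s + 1 := ⟨r - 1, by omega⟩
    have h2 := heqs s
    rw [if_pos rfl] at h2
    rw [h2]
    exact v.map_le_add (v.map_le_sub (hpow' _ (hup s (by omega))) hr) (hw _)

end Pool.Agent.Helper26.WR
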